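import Pool.Agent.H30.EE.TargetsG

/-!
# MP_70ba79_ag: the ideal of a rational normal curve is generated by quadratic forms

Row GEN of the board `ee_modules`.
-/

set_option autoImplicit false

namespace Pool.Agent.H6.EE

open MvPolynomial SC Pool.Agent.H27.LV Pool.Agent.H17.VG Pool.Agent.H30.EE

variable {K : Type} [Field K] {n r : ℕ}

/-- the standard products of `d` of the forms `ξ 0, …, ξ r` with weight `w` -/
private noncomputable def NN (r : ℕ) (ξ : ℕ → MvPolynomial (Fin (n + 1)) K) :
    ℕ → ℕ → MvPolynomial (Fin (n + 1)) K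
  | 0, _ => 1
  | d + 1, w => ξ (min r w) * NN r ξ d (w - min r w)

private theorem NN_hom (ξ : ℕ → MvPolynomial (Fin (n + 1)) K)
    (hξ : ∀ i ≤ r, (ξ i).IsHomogeneous 1) (d : ℕ) : ∀ w, (NN r ξ d w).IsHomogeneous d := by
  induction d with
  | zero => intro w; exact isHomogeneous_one _ _
  | succ d ih =>
    intro w
    have := (ih (w - min r w)).mul (hξ (min r w) (min_le_left _ _))
    rw [mul_comm (NN r ξ d (w - min r w))] at this
    exact this

/-- the restriction homomorphism -/
private noncomputable def rs (z : Fin (r + 1) → Fin (n + 1) → K) :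
    MvPolynomial (Fin (n + 1)) K →ₐ[K] Polynomial K :=
  aeval (R := K) (fun i => ∑ j, Polynomial.C (z j i) * (Polynomial.X : Polynomial K) ^ (j : ℕ))

private theorem mem_Iz {z : Fin (r + 1) → Fin (n + 1) → K} {a : ℕ}
    {G : MvPolynomial (Fin (n + 1)) K} : G ∈ Iz a z ↔ G.IsHomogeneous a ∧ rs z G = 0 := by
  unfold Iz
  rw [Submodule.mem_inf, LinearMap.mem_ker, mem_homogeneousSubmodule]
  rfl

private theorem NN_res (z : Fin (r + 1) → Fin (n + 1) → K) (ξ : ℕ → MvPolynomial (Fin (n + 1)) K)
    (hξ : ∀ i ≤ r, rs z (ξ i) = Polynomial.X ^ i) (d : ℕ) :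
    ∀ w ≤ r * d, rs z (NN r ξ d w) = Polynomial.X ^ w := by
  induction d with
  | zero =>
    intro w hw
    have : w = 0 := by simpa using hw
    subst this
    simp [NN]
  | succ d ih =>
    intro w hw
    have h1 : w - min r w ≤ r * d := by
      have : r * (d + 1) = r * d + r := by ring
      rcases le_total r w with h | h
      · rw [min_eq_left h]; omega
      · rw [min_eq_right h]; omega
    have h2 : min r w ≤ w := min_le_right _ _
    rw [NN, map_mul, hξ _ (min_le_left _ _), ih _ h1, ← pow_add]
    rw [Nat.add_sub_cancel' h2]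

/-- multiples of the linear and quadratic forms which vanish on the curve -/
private noncomputable def QQ (z : Fin (r + 1) → Fin (n + 1) → K) (d : ℕ) :
    Submodule K (MvPolynomial (Fin (n + 1)) K) :=
  Submodule.span K {H | ∃ (e f : ℕ) (G M : MvPolynomial (Fin (n + 1)) K), (e = 1 ∨ e = 2) ∧
    G ∈ Iz e z ∧ M.IsHomogeneous f ∧ e + f = d ∧ H = M * G}

private theorem QQ_mul {z : Fin (r + 1) → Fin (n + 1) → K} {d c : ℕ}
    {L : MvPolynomial (Fin (n + 1)) K} (hL : L.IsHomogeneous c) {H : MvPolynomial (Fin (n + 1)) K}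
    (hH : H ∈ QQ z d) : L * H ∈ QQ z (d + c) := by
  unfold QQ at hH
  induction hH using Submodule.span_induction with
  | mem x hx =>
    obtain ⟨e, f, G, M, he, hG, hM, hd, rfl⟩ := hx
    refine Submodule.subset_span ⟨e, f + c, G, L * M, he, hG, ?_, by omega, by ring⟩
    have := hM.mul hL
    rw [mul_comm M L] at this
    exact this
  | zero => rw [mul_zero]; exact Submodule.zero_mem _
  | add x y _ _ hx hy => rw [mul_add]; exact Submodule.add_mem _ hx hy
  | smul t x _ hx => rw [mul_smul_comm]; exact Submodule.smul_mem _ _ hx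

private theorem QQ_res {z : Fin (r + 1) → Fin (n + 1) → K} {d : ℕ}
    {H : MvPolynomial (Fin (n + 1)) K} (hH : H ∈ QQ z d) : rs z H = 0 := by
  unfold QQ at hH
  induction hH using Submodule.span_induction with
  | mem x hx =>
    obtain ⟨e, f, G, M, he, hG, hM, hd, rfl⟩ := hx
    rw [map_mul, (mem_Iz.1 hG).2, mul_zero]
  | zero => rw [map_zero]
  | add x y _ _ hx hy => rw [map_add, hx, hy, add_zero]
  | smul t x _ hx => rw [map_smul, hx, smul_zero]

private theorem step {z : Fin (r + 1) → Fin (n + 1) → K} {ξ : ℕ → MvPolynomial (Fin (n + 1)) K}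
    (hξ1 : ∀ i ≤ r, (ξ i).IsHomogeneous 1) (hξ : ∀ i ≤ r, rs z (ξ i) = Polynomial.X ^ i) (d : ℕ) :
    ∀ w i, w ≤ r * d → i ≤ r → ξ i * NN r ξ d w - NN r ξ (d + 1) (w + i) ∈ QQ z (d + 1) := by
  induction d with
  | zero =>
    intro w i hw hi
    have : w = 0 := by simpa using hw
    subst this
    simp only [NN, zero_add]
    rw [min_eq_right hi, sub_self]
    exact Submodule.zero_mem _
  | succ d ih =>
    intro w i hw hi
    rcases le_or_gt w r with h | h
    · obtain ⟨m, v, hm, hv, hmv, h1⟩ : ∃ m v, m ≤ r ∧ v ≤ r ∧ i + w = m + v ∧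
          NN r ξ (d + 2) (w + i) = ξ m * (ξ v * NN r ξ d 0) := by
        refine ⟨min r (w + i), w + i - min r (w + i), min_le_left _ _, ?_, ?_, ?_⟩
        · rcases le_total r (w + i) with h' | h'
          · rw [min_eq_left h']; omega
          · rw [min_eq_right h']; omega
        · have := min_le_right r (w + i)
          omega
        · have hv : w + i - min r (w + i) ≤ r := by
            rcases le_total r (w + i) with h' | h'
            · rw [min_eq_left h']; omega
            · rw [min_eq_right h']; omega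
          rw [NN, NN, min_eq_right hv, Nat.sub_self]
      have h2 : NN r ξ (d + 1) w = ξ w * NN r ξ d 0 := by
        rw [NN, min_eq_right h, Nat.sub_self]
      rw [h1, h2]
      refine Submodule.subset_span ⟨2, d, ξ i * ξ w - ξ m * ξ v, NN r ξ d 0, Or.inr rfl, ?_,
        NN_hom ξ hξ1 d 0, by omega, by ring⟩
      rw [mem_Iz]
      constructor
      · exact ((hξ1 i hi).mul (hξ1 w h)).sub ((hξ1 m hm).mul (hξ1 v hv))
      · rw [map_sub, map_mul, map_mul, hξ i hi, hξ w h, hξ m hm, hξ v hv, ← pow_add, ← pow_add,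
          hmv, sub_self]
    · have h1 : NN r ξ (d + 1) w = ξ r * NN r ξ d (w - r) := by rw [NN, min_eq_left h.le]
      have h2 : NN r ξ (d + 2) (w + i) = ξ r * NN r ξ (d + 1) (w - r + i) := by
        have h3 : w + i - r = w - r + i := by omega
        rw [NN, min_eq_left (by omega : r ≤ w + i), h3]
      have h4 : w - r ≤ r * d := by
        have : r * (d + 1) = r * d + r := by ring
        omega
      have h5 := QQ_mul (hξ1 r le_rfl) (ih (w - r) i h4 hi)
      rw [h1, h2]
      have h6 : ξ i * (ξ r * NN r ξ d (w - r)) - ξ r * NN r ξ (d + 1) (w - r + i) =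
          ξ r * (ξ i * NN r ξ d (w - r) - NN r ξ (d + 1) (w - r + i)) := by ring
      rw [h6]
      exact h5

private theorem main {z : Fin (r + 1) → Fin (n + 1) → K} {ξ : ℕ → MvPolynomial (Fin (n + 1)) K}
    (hξ1 : ∀ i ≤ r, (ξ i).IsHomogeneous 1) (hξ : ∀ i ≤ r, rs z (ξ i) = Polynomial.X ^ i)
    (hη : ∀ j, (X j : MvPolynomial (Fin (n + 1)) K) - ∑ i : Fin (r + 1), C (z i j) * ξ i ∈ Iz 1 z)
    (d : ℕ) : ∀ m : Fin (n + 1) →₀ ℕ, m.degree = d → monomial m (1 : K) ∈
      QQ z d ⊔ Submodule.span K (Set.range fun w : Fin (r * d + 1) => NN r ξ d w) := by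
  induction d with
  | zero =>
    intro m hm
    have : m = 0 := (Finsupp.degree_eq_zero_iff m).1 hm
    subst this
    refine Submodule.mem_sup_right (Submodule.subset_span ⟨0, ?_⟩)
    simp [NN]
  | succ d ih =>
    intro m hm
    obtain ⟨j, hj⟩ : ∃ j, m j ≠ 0 := by
      by_contra hcon
      push Not at hcon
      have : m = 0 := Finsupp.ext hcon
      rw [this, map_zero] at hm
      omega
    obtain ⟨m', hm'⟩ : ∃ m', m = Finsupp.single j 1 + m' := by
      refine ⟨m - Finsupp.single j 1, (add_tsub_cancel_of_le ?_).symm⟩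
      rw [Finsupp.single_le_iff]
      omega
    have hdeg : m'.degree = d := by
      rw [hm', map_add, Finsupp.degree_single] at hm
      omega
    have e1 : monomial m (1 : K) = X j * monomial m' (1 : K) := by
      rw [hm', X, monomial_mul, one_mul]
    have hmul : ∀ P ∈ QQ z d ⊔ Submodule.span K (Set.range fun w : Fin (r * d + 1) => NN r ξ d w),
        X j * P ∈ QQ z (d + 1) ⊔
          Submodule.span K (Set.range fun w : Fin (r * (d + 1) + 1) => NN r ξ (d + 1) w) := by
      intro P hP
      obtain ⟨q, hq, p, hp, rfl⟩ := Submodule.mem_sup.1 hP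
      rw [mul_add (X j) q p]
      refine Submodule.add_mem _ (Submodule.mem_sup_left (QQ_mul (isHomogeneous_X K j) hq)) ?_
      clear hP
      induction hp using Submodule.span_induction with
      | mem x hx =>
        obtain ⟨w, rfl⟩ := hx
        have hw : (w : ℕ) ≤ r * d := by omega
        have e2 : (X j : MvPolynomial (Fin (n + 1)) K) * NN r ξ d w =
            NN r ξ d w * (X j - ∑ i : Fin (r + 1), C (z i j) * ξ i) +
            ∑ i : Fin (r + 1), (z i j) • (ξ i * NN r ξ d w - NN r ξ (d + 1) (w + i)) +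
            ∑ i : Fin (r + 1), (z i j) • NN r ξ (d + 1) (w + i) := by
          rw [add_assoc, ← Finset.sum_add_distrib, mul_sub, Finset.mul_sum]
          rw [sub_add_eq_add_sub, eq_sub_iff_add_eq, mul_comm (X j)]
          refine congrArg₂ _ rfl (Finset.sum_congr rfl fun i _ => ?_)
          rw [← smul_add, sub_add_cancel, smul_eq_C_mul]
          ring
        show (X j : MvPolynomial (Fin (n + 1)) K) * NN r ξ d w ∈ _
        rw [e2]
        refine Submodule.add_mem _ (Submodule.mem_sup_left (Submodule.add_mem _ ?_ ?_)) ?_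
        · exact Submodule.subset_span ⟨1, d, _, _, Or.inl rfl, hη j, NN_hom ξ hξ1 d w,
            by omega, rfl⟩
        · exact Submodule.sum_mem _ fun i _ => Submodule.smul_mem _ _
            (step hξ1 hξ d w i hw (by omega))
        · refine Submodule.mem_sup_right (Submodule.sum_mem _ fun i _ =>
            Submodule.smul_mem _ _ (Submodule.subset_span ⟨⟨w + i, ?_⟩, rfl⟩))
          have : r * (d + 1) = r * d + r := by ring
          omega
      | zero => rw [mul_zero]; exact Submodule.zero_mem _
      | add x y _ _ hx hy =>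
        rw [mul_add (X j) x y]
        exact Submodule.add_mem _ hx hy
      | smul t x _ hx =>
        rw [mul_smul_comm]
        exact Submodule.smul_mem _ _ hx
    rw [e1]
    exact hmul _ (ih m' hdeg)

/-- dual linear forms -/
private theorem dual (z : Fin (r + 1) → Fin (n + 1) → K) (hz : LinearIndependent K z) :
    ∃ ξ : ℕ → MvPolynomial (Fin (n + 1)) K, (∀ i ≤ r, (ξ i).IsHomogeneous 1) ∧
      (∀ i ≤ r, rs z (ξ i) = Polynomial.X ^ i) ∧
      ∀ j, (X j : MvPolynomial (Fin (n + 1)) K) - ∑ i : Fin (r + 1), C (z i j) * ξ i ∈ Iz 1 z := by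
  have hinj : Function.Injective (Fintype.linearCombination K z) :=
    linearIndependent_iff_injective_fintypeLinearCombination.1 hz
  obtain ⟨f, hf⟩ := LinearMap.exists_leftInverse_of_injective _ (LinearMap.ker_eq_bot.2 hinj)
  have hf1 : ∀ k : Fin (r + 1), f (z k) = Pi.single k 1 := by
    intro k
    have h1 := LinearMap.congr_fun hf (Pi.single k 1)
    rw [LinearMap.comp_apply, Fintype.linearCombination_apply_single, one_smul] at h1
    exact h1
  have hf2 : ∀ (x : Fin (n + 1) → K) (i : Fin (r + 1)),
      f x i = ∑ j, x j * f (Pi.single j 1) i := by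
    intro x i
    have h1 : x = ∑ j, x j • (Pi.single j (1 : K) : Fin (n + 1) → K) := pi_eq_sum_univ' x
    conv_lhs => rw [h1]
    rw [map_sum, Finset.sum_apply]
    refine Finset.sum_congr rfl fun j _ => ?_
    rw [map_smul, Pi.smul_apply, smul_eq_mul]
  have hlin : ∀ x : Fin (n + 1) → K, (lin x).IsHomogeneous 1 := by
    intro x
    unfold lin
    refine IsHomogeneous.sum _ _ _ fun j _ => ?_
    have := (isHomogeneous_C (Fin (n + 1)) (x j)).mul (isHomogeneous_X K j)
    rw [zero_add] at this
    exact this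
  have hX : ∀ j, rs z (X j) = ∑ k : Fin (r + 1), Polynomial.C (z k j) *
      (Polynomial.X : Polynomial K) ^ (k : ℕ) := fun j => by
    unfold rs
    rw [aeval_X]
  have hC : ∀ c : K, rs z (C c) = Polynomial.C c := fun c => by
    unfold rs
    rw [aeval_C]
    rfl
  have hres : ∀ i : Fin (r + 1), rs z (lin fun j => f (Pi.single j 1) i) =
      Polynomial.X ^ (i : ℕ) := by
    intro i
    unfold lin
    rw [map_sum]
    simp only [map_mul, hX, hC, Finset.mul_sum]
    rw [Finset.sum_comm]
    rw [Finset.sum_eq_single i]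
    · rw [← Finset.sum_congr rfl fun j _ => mul_assoc _ _ _, ← Finset.sum_mul]
      have h1 : ∑ j, Polynomial.C (f (Pi.single j 1) i) * Polynomial.C (z i j) = 1 := by
        simp only [← Polynomial.C_mul]
        rw [← map_sum]
        have h2 := hf2 (z i) i
        rw [hf1, Pi.single_eq_same] at h2
        have h3 : ∑ j, f (Pi.single j 1) i * z i j = 1 :=
          (Finset.sum_congr rfl fun j _ => mul_comm _ _).trans h2.symm
        rw [h3, Polynomial.C_1]
      rw [h1, one_mul]
    · intro k _ hk
      rw [← Finset.sum_congr rfl fun j _ => mul_assoc _ _ _, ← Finset.sum_mul]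
      have h1 : ∑ j, Polynomial.C (f (Pi.single j 1) i) * Polynomial.C (z k j) = 0 := by
        simp only [← Polynomial.C_mul]
        rw [← map_sum]
        have h2 := hf2 (z k) i
        rw [hf1, Pi.single_eq_of_ne hk.symm] at h2
        have h3 : ∑ j, f (Pi.single j 1) i * z k j = 0 :=
          (Finset.sum_congr rfl fun j _ => mul_comm _ _).trans h2.symm
        rw [h3, Polynomial.C_0]
      rw [h1, zero_mul]
    · intro h
      exact absurd (Finset.mem_univ _) h
  refine ⟨fun i => if h : i < r + 1 then lin fun j => f (Pi.single j 1) ⟨i, h⟩ else 0,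
    ?_, ?_, ?_⟩
  · intro i hi
    show (if h : i < r + 1 then lin fun j => f (Pi.single j 1) ⟨i, h⟩ else 0).IsHomogeneous 1
    rw [dif_pos (Nat.lt_succ_of_le hi)]
    exact hlin _
  · intro i hi
    show rs z (if h : i < r + 1 then lin fun j => f (Pi.single j 1) ⟨i, h⟩ else 0) = _
    rw [dif_pos (Nat.lt_succ_of_le hi)]
    exact hres ⟨i, Nat.lt_succ_of_le hi⟩
  · intro j
    have e1 : ∀ i : Fin (r + 1), (if h : (i : ℕ) < r + 1 then
        lin fun j => f (Pi.single j 1) ⟨i, h⟩ else 0) = lin fun j => f (Pi.single j 1) i := by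
      intro i
      rw [dif_pos i.2]
    have e2 : ∑ i : Fin (r + 1), C (z i j) * (if h : (i : ℕ) < r + 1 then
        lin fun j => f (Pi.single j 1) ⟨i, h⟩ else 0) =
        ∑ i : Fin (r + 1), C (z i j) * lin fun j => f (Pi.single j 1) i :=
      Finset.sum_congr rfl fun i _ => by rw [e1 i]
    show (X j : MvPolynomial (Fin (n + 1)) K) - ∑ i : Fin (r + 1), C (z i j) *
      (if h : (i : ℕ) < r + 1 then lin fun j => f (Pi.single j 1) ⟨i, h⟩ else 0) ∈ _
    rw [e2, mem_Iz]
    constructor
    · refine (isHomogeneous_X K j).sub (IsHomogeneous.sum _ _ _ fun i _ => ?_)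
      have := (isHomogeneous_C (Fin (n + 1)) (z i j)).mul (hlin fun j => f (Pi.single j 1) i)
      rw [zero_add] at this
      exact this
    · rw [map_sub, hX, map_sum]
      simp only [map_mul, hC, hres]
      rw [sub_self]

theorem pf_GEN (_hQDM : T_QDM) : T_GEN := by
  intro K _ n r a z hz
  obtain ⟨ξ, hξ1, hξ, hη⟩ := dual z hz
  apply le_antisymm
  · intro G hG
    rw [mem_Iz] at hG
    -- the form lies in the sum
    have h1 : G ∈ QQ z (a + 2) ⊔
        Submodule.span K (Set.range fun w : Fin (r * (a + 2) + 1) => NN r ξ (a + 2) w) := by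
      rw [G.as_sum]
      refine Submodule.sum_mem _ fun m hm => ?_
      have h2 : monomial m (coeff m G) = coeff m G • monomial m (1 : K) := by
        rw [smul_monomial, smul_eq_mul, mul_one]
      rw [h2]
      refine Submodule.smul_mem _ _ (main hξ1 hξ hη (a + 2) m ?_)
      have h3 := hG.1 (mem_support_iff.1 hm)
      rw [Finsupp.degree_eq_weight_one]
      exact h3
    obtain ⟨q, hq, p, hp, rfl⟩ := Submodule.mem_sup.1 h1
    obtain ⟨c, hc⟩ := (Submodule.mem_span_range_iff_exists_fun K).1 hp
    have h4 : rs z p = 0 := by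
      have := hG.2
      rw [map_add, QQ_res hq, zero_add] at this
      exact this
    have h5 : ∀ w, c w = 0 := by
      intro w
      have h6 : (rs z p).coeff w = c w := by
        rw [← hc, map_sum, Polynomial.finsetSum_coeff, Finset.sum_eq_single w]
        · rw [map_smul, NN_res z ξ hξ _ _ (Nat.le_of_lt_succ w.2), Polynomial.coeff_smul,
            Polynomial.coeff_X_pow_self, smul_eq_mul, mul_one]
        · intro w' _ hw'
          rw [map_smul, NN_res z ξ hξ _ _ (Nat.le_of_lt_succ w'.2), Polynomial.coeff_smul,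
            Polynomial.coeff_X_pow, if_neg (fun h => hw' (Fin.ext h.symm)), smul_zero]
        · intro h
          exact absurd (Finset.mem_univ _) h
      rw [← h6, h4, Polynomial.coeff_zero]
    have h7 : p = 0 := by
      rw [← hc]
      exact Finset.sum_eq_zero fun w _ => by rw [h5 w, zero_smul]
    rw [h7, add_zero]
    -- from the linear and quadratic forms to the quadratic ones
    unfold QQ at hq
    clear h1 hG hp hc h4 h7
    refine Submodule.span_le.2 ?_ hq
    rintro H ⟨e, f, G, M, he, hG, hM, hd, rfl⟩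
    rw [mem_Iz] at hG
    show M * G ∈ _
    rw [M.as_sum, Finset.sum_mul]
    refine Submodule.sum_mem _ fun m hm => ?_
    have h2 : monomial m (coeff m M) = coeff m M • monomial m (1 : K) := by
      rw [smul_monomial, smul_eq_mul, mul_one]
    rw [h2, smul_mul_assoc]
    refine Submodule.smul_mem _ _ (Submodule.subset_span ?_)
    have h3 : m.degree = f := by
      have := hM (mem_support_iff.1 hm)
      rw [Finsupp.degree_eq_weight_one]
      exact this
    have hfs : ∀ m' : Fin (n + 1) →₀ ℕ, fs (m' : Fin (n + 1) → ℕ) = m' := fun m' =>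
      Finsupp.equivFunOnFinite_symm_coe m'
    have hdg : ∀ m' : Fin (n + 1) →₀ ℕ, m'.degree = ∑ i, m' i := fun m' =>
      Finsupp.degree_eq_sum m'
    rcases he with rfl | rfl
    · obtain ⟨j, hj⟩ : ∃ j, m j ≠ 0 := by
        by_contra hcon
        push Not at hcon
        have : m = 0 := Finsupp.ext hcon
        rw [this, map_zero] at h3
        omega
      obtain ⟨m', hm'⟩ : ∃ m', m = Finsupp.single j 1 + m' := by
        refine ⟨m - Finsupp.single j 1, (add_tsub_cancel_of_le ?_).symm⟩
        rw [Finsupp.single_le_iff]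
        omega
      have hdeg : m'.degree = a := by
        rw [hm', map_add, Finsupp.degree_single] at h3
        omega
      refine ⟨X j * G, ?_, ⟨m', by rw [← hdg]; exact hdeg⟩, ?_⟩
      · rw [mem_Iz]
        exact ⟨(isHomogeneous_X K j).mul hG.1, by rw [map_mul, hG.2, mul_zero]⟩
      · unfold mono
        rw [hfs, hm', ← mul_assoc, mul_comm _ (X j), X, monomial_mul, one_mul]
    · refine ⟨G, mem_Iz.2 hG, ⟨m, by rw [← hdg]; omega⟩, ?_⟩
      unfold mono
      rw [hfs]
  · refine Submodule.span_le.2 ?_
    rintro H ⟨G, hG, M, rfl⟩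
    rw [mem_Iz] at hG
    show _ ∈ Iz (a + 2) z
    rw [mem_Iz]
    refine ⟨?_, by rw [map_mul, hG.2, mul_zero]⟩
    exact (isHomogeneous_mono (K := K) M).mul hG.1

end Pool.Agent.H6.EE
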